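import Pool.Agent.H27.Cone

set_option autoImplicit false

open Pool.Agent.H27.Cone

namespace Pool.Agent.Results.MP_c65f17_an.TwoMinimal

theorem result : ∃ (E : Type) (_ : NormedAddCommGroup E) (_ : NormedSpace ℝ E)
    (_ : CompleteSpace E) (C : Set E), IsCone C ∧
    (∃ c : ℝ, 1 ≤ c ∧ ∀ x y : E, x ∈ C → y - x ∈ C → ‖x‖ ≤ c * ‖y‖) ∧
    ∃ x : ℕ → E, (∀ i j, i ≤ j → x j - x i ∈ C) ∧
      (∃ u, (∀ j, u - x j ∈ C) ∧ ∀ v, (∀ j, v - x j ∈ C) → u - v ∈ C → v = u) ∧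
      ¬∃ s, (∀ j, s - x j ∈ C) ∧ ∀ v, (∀ j, v - x j ∈ C) → v - s ∈ C :=
  ⟨X, inferInstance, inferInstance, inferInstance, K, isCone, ⟨1, le_rfl, normal⟩, seq, seq_mono,
    ⟨_, ub 0 le_rfl zero_le_one, minimal 0⟩, no_sup⟩

end Pool.Agent.Results.MP_c65f17_an.TwoMinimal
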